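import Pool.Agent.UL7.Stmts
import Pool.Agent.Helper34_UL3.FUB
import Pool.Agent.Helper36_UL3.SEC

/-!
# Squad UL7, row SPV (MP_c7c9bf_co): the volume of a symmetric body from a face
-/

set_option autoImplicit false

namespace Pool.Agent.UL7.H50

open MeasureTheory Set Pool.Agent.UL3 Pool.Agent.UL4 Pool.Agent.UL5 Pool.Agent.UL7

/-- the sections between the two faces -/
theorem mixSub (D : Set E3) (hD : SB D) (z : ℝ) (h0 : 0 ≤ z) (h1 : z ≤ 1) :
    mix (sec D 1) (1 - z) ⊆ sec D z := by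
  rintro p ⟨a, ha, m, ⟨b, hb, b', hb', rfl⟩, rfl⟩
  rw [mem_sec] at ha hb hb' ⊢
  have hn : up (-b') (-1) ∈ D := by
    rw [← up_neg]
    exact hD.sym _ hb'
  have e : up ((1 - (1 - z)) • a + (1 - z) • (1 / 2 : ℝ) • (b - b')) z =
      z • up a 1 + (1 - z) • ((1 / 2 : ℝ) • up b 1 + (1 / 2 : ℝ) • up (-b') (-1)) := by
    rw [up_smul, up_smul, up_smul, up_add, up_smul, up_add]
    congr 1
    · module
    · ring
  rw [e]
  refine hD.cvx ha (hD.cvx hb hn (by norm_num) (by norm_num) (by norm_num)) h0 (by linarith) (by ring)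

/-- **SPV** -/
theorem spv (hvlp : VlpStmt) (hrsp : RspStmt) (hdhs : DhsStmt) : SpvStmt := by
  intro D hD hA
  have _ := hdhs
  have hsec := Pool.Agent.UL3.H36.sec D hD
  have hfub := Pool.Agent.UL3.H34.fub D hD.cpt
  have key : ∀ z : ℝ, 0 ≤ z → z ≤ 1 → ar (dh (sec D 1)) * (1 - z ^ 2 / 3) ≤ al D z := by
    intro z h0 h1
    have h2 := hvlp (sec D 1) (1 - z) hA (by linarith) (by linarith)
    have h3 := hrsp (sec D 1) hA
    have h4 : ar (mix (sec D 1) (1 - z)) ≤ al D z := by
      refine measureReal_mono (mixSub D hD z h0 h1) ?_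
      exact (hsec.2.1 z).1.measure_lt_top.ne
    have h5 : (1 - (1 - z)) = z := by ring
    rw [h5] at h2
    nlinarith [sq_nonneg z]
  have key2 : ∀ z ∈ Icc (-1 : ℝ) 1, ar (dh (sec D 1)) * (1 - z ^ 2 / 3) ≤ al D z := by
    intro z hz
    rcases le_total 0 z with h | h
    · exact key z h hz.2
    · have h1 := key (-z) (by linarith) (by linarith [hz.1])
      rw [(hsec.2.1 z).2.2.2, neg_sq] at h1
      exact h1
  have h6 := hfub.2.2 1
  have h7 : V {x | x ∈ D ∧ |x 2| ≤ 1} ≤ V D :=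
    measureReal_mono (fun x hx => hx.1) hD.cpt.measure_lt_top.ne
  have h8 : ∫ z in Icc (-1 : ℝ) 1, ar (dh (sec D 1)) * (1 - z ^ 2 / 3) ≤ ∫ z in Icc (-1 : ℝ) 1, al D z := by
    refine setIntegral_mono_on ?_ hfub.1.integrableOn measurableSet_Icc key2
    exact (Continuous.continuousOn (by fun_prop)).integrableOn_Icc
  have h9 : ∫ z in Icc (-1 : ℝ) 1, ar (dh (sec D 1)) * (1 - z ^ 2 / 3) = 16 / 9 * ar (dh (sec D 1)) := by
    rw [integral_Icc_eq_integral_Ioc, ← intervalIntegral.integral_of_le (by norm_num),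
      intervalIntegral.integral_const_mul, intervalIntegral.integral_sub (by simp) (by
        exact (Continuous.intervalIntegrable (by fun_prop) _ _))]
    rw [intervalIntegral.integral_div, integral_pow]
    simp only [intervalIntegral.integral_const, smul_eq_mul]
    ring
  rw [← h9]
  exact (h8.trans (le_of_eq h6.symm)).trans h7

end Pool.Agent.UL7.H50
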