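import Pool.Agent.UL7.Stmts

/-!
# Squad UL7, row ZIN (MP_c7c9bf_co): the zonotope of the half edges is inside the body
-/

set_option autoImplicit false

namespace Pool.Agent.UL7.H50

open MeasureTheory Set Pool.Agent.UL3 Pool.Agent.UL4 Pool.Agent.UL5 Pool.Agent.UL7

theorem zona (u : ℝ × ℝ) : ∀ (l : List (ℝ × ℝ)) (X : Set (ℝ × ℝ)) (z : ℝ × ℝ), z ∈ zon X l →
    ∃ x ∈ X, cr u z ≤ cr u x + (l.map fun v => |cr u v|).sum := by
  intro l
  induction l with
  | nil =>
    intro X z hz
    refine ⟨z, hz, ?_⟩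
    simp
  | cons v l ih =>
    intro X z hz
    obtain ⟨y, hy, hzy⟩ := ih (sgm X v) z hz
    obtain ⟨x, hx, t, ht, rfl⟩ := hy
    refine ⟨x, hx, ?_⟩
    have h1 : cr u (x + t • v) = cr u x + t * cr u v := by
      simp only [cr, Prod.fst_add, Prod.snd_add, Prod.smul_fst, Prod.smul_snd, smul_eq_mul]
      ring
    have h2 : t * cr u v ≤ |cr u v| := by
      calc t * cr u v ≤ |t * cr u v| := le_abs_self _
        _ = |t| * |cr u v| := abs_mul _ _
        _ ≤ 1 * |cr u v| := mul_le_mul_of_nonneg_right ht (abs_nonneg _)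
        _ = |cr u v| := one_mul _
    rw [List.map_cons, List.sum_cons]
    rw [h1] at hzy
    linarith

theorem lsum (f : ℕ → ℝ) (N : ℕ) : ((List.range N).map f).sum = ∑ j ∈ Finset.range N, f j := by
  induction N with
  | zero => simp
  | succ n ih => rw [List.range_succ, List.map_append, List.sum_append, ih, Finset.sum_range_succ]; simp

theorem edg_eq (P : ℝ → ℝ × ℝ) (N : ℕ) : edg P N = (List.range N).map fun j : ℕ =>
    (1 / 2 : ℝ) • (P (Real.pi * ((j : ℝ) + 1) / N) - P (Real.pi * (j : ℝ) / N)) := by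
  have h : (do let a ← List.range N; pure (a : ℝ) : List ℝ) = (List.range N).map fun a : ℕ => (a : ℝ) := by
    simp only [List.pure_def, List.bind_eq_flatMap]
    exact List.flatMap_pure_eq_map _ _
  rw [edg, h, List.map_map]
  rfl

/-- **ZIN** -/
theorem zin (hv : VrpStmt) : ZinStmt := by
  intro M P hM hP N z hz
  by_contra hzM
  obtain ⟨f, s, hs, hfz⟩ := geometric_hahn_banach_closed_point hM.cvx hM.cpt.isClosed hzM
  set u : ℝ × ℝ := (f (0, 1), -f (1, 0)) with hu
  have hf : ∀ w : ℝ × ℝ, cr u w = f w := by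
    intro w
    have h1 : w = w.1 • ((1, 0) : ℝ × ℝ) + w.2 • ((0, 1) : ℝ × ℝ) := by
      ext <;> simp
    conv_rhs => rw [h1, map_add, map_smul, map_smul]
    simp only [cr, hu, smul_eq_mul]
    ring
  obtain ⟨x, hx, hzx⟩ := zona u (edg P N) {0} z hz
  have hx0 : cr u x = 0 := by
    rw [mem_singleton_iff] at hx
    rw [hx]
    simp [cr]
  have hsum : ((edg P N).map fun v => |cr u v|).sum = 1 / 2 *
      ∑ j ∈ Finset.range N, |cr u (P (Real.pi * ((j : ℝ) + 1) / N)) - cr u (P (Real.pi * (j : ℝ) / N))| := by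
    rw [edg_eq, List.map_map, lsum, Finset.mul_sum]
    refine Finset.sum_congr rfl fun j _ => ?_
    have h1 : cr u ((1 / 2 : ℝ) • (P (Real.pi * ((j : ℝ) + 1) / N) - P (Real.pi * (j : ℝ) / N))) =
        1 / 2 * (cr u (P (Real.pi * ((j : ℝ) + 1) / N)) - cr u (P (Real.pi * (j : ℝ) / N))) := by
      simp only [cr, Prod.fst_sub, Prod.snd_sub, Prod.smul_fst, Prod.smul_snd, smul_eq_mul]
      ring
    rw [Function.comp_apply, h1, abs_mul, abs_of_pos (by norm_num : (0 : ℝ) < 1 / 2)]
  have hle := hv M P hM hP u N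
  have hmem : Hm M u ∈ (fun w => cr u w) '' M := by
    refine IsCompact.sSup_mem (hM.cpt.image_of_continuousOn ?_) ⟨_, mem_image_of_mem _ (hP.mem 0)⟩
    refine Continuous.continuousOn ?_
    have : (fun w => cr u w) = fun w => f w := funext hf
    rw [this]
    exact f.continuous
  obtain ⟨w, hw, hwm⟩ := hmem
  have h1 := hs w hw
  have h2 := hf w
  have h3 := hf z
  simp only at hwm
  rw [hx0, hsum] at hzx
  linarith

end Pool.Agent.UL7.H50
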